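import Mathlib
import Pool.Agent.H798.BV.Stm5

set_option autoImplicit false

/-!
# (C2a) the case `√m |s'| ≤ K` (helper897 for helper798)
-/

namespace Pool.Agent.H897.BV

open Pool.Agent.H798.BV Filter Topology

theorem ev_exp (A a b : ℝ) (ha : 0 < a) (hb : 0 < b) : ∀ᶠ m : ℕ in atTop,
    A * Real.exp (-(m * a)) < b := by
  have h1 : Tendsto (fun m : ℕ => (m : ℝ) * a) atTop atTop :=
    tendsto_natCast_atTop_atTop.atTop_mul_const ha
  have h2 := (Real.tendsto_exp_neg_atTop_nhds_zero.comp h1).const_mul A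
  rw [mul_zero] at h2
  exact h2.eventually (gt_mem_nhds hb)

theorem t_C2a (h1 : S_PT) (h2 : S_LG) : S_C2a := by
  intro r κ K hr0 hr1 hκ0 hκ1 hK
  have h1r : 0 < 1 - r := by linarith
  set L : ℝ := 2 / (1 - r) with hL
  have hL2 : 2 ≤ L := by
    rw [hL, le_div_iff₀ h1r]
    linarith
  have hL1 : 1 ≤ L := by linarith
  have hL0 : 0 < L := by linarith
  obtain ⟨c, hc, hLG⟩ := h2 K L hK hL1
  obtain ⟨ρ, hρ⟩ : ∃ ρ : ℝ, ρ = 1 / (24 * L ^ 2) := ⟨_, rfl⟩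
  have hρ0 : 0 < ρ := by rw [hρ]; positivity
  have hρL : ρ * L ≤ 1 / 4 := by
    rw [hρ, div_mul_eq_mul_div, one_mul, div_le_div_iff₀ (by positivity) (by norm_num)]
    nlinarith
  have hρr : ρ ≤ (1 - r) / 8 := by
    have h3 : (1 - r) / 8 = 1 / (4 * L) := by
      rw [hL]
      field_simp
      norm_num
    rw [h3, hρ]
    apply div_le_div_of_nonneg_left zero_le_one (by positivity)
    nlinarith
  have hb : 0 < (1 - κ) * c := mul_pos (by linarith) hc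
  obtain ⟨s, hs⟩ : ∃ s : ℝ, s = ρ ^ 2 * (1 - r) / 960 := ⟨_, rfl⟩
  have hs0 : 0 < s := by rw [hs]; positivity
  have hsq : Tendsto (fun m : ℕ => Real.sqrt m) atTop atTop :=
    Real.tendsto_sqrt_atTop.comp tendsto_natCast_atTop_atTop
  obtain ⟨N, hN⟩ := eventually_atTop.1 ((hsq.eventually_ge_atTop
    (1600 * L ^ 2 / ((1 - κ) * c))).and ((ev_exp 4 (ρ ^ 2 / 20) ((1 - κ) * c / 8)
    (by positivity) (by positivity)).and ((ev_exp 3 (ρ ^ 2 / 96) ((1 - κ) * c / 2)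
    (by positivity) (by positivity)).and (eventually_ge_atTop 1))))
  refine ⟨(1 - κ) * c / 800, by positivity, min 1 (s ^ 2), lt_min one_pos (by positivity),
    min_le_left _ _, N, fun m l δ hm hδ0 hδ hl hbB hEP hsK hY1 hY2 => ?_⟩
  obtain ⟨g1, g2, g3, g4⟩ := hN m hm
  have hm1 : (1 : ℝ) ≤ m := by exact_mod_cast g4
  have hm0 : (0 : ℝ) < m := by linarith
  have hsm0 : 0 < Real.sqrt m := Real.sqrt_pos.2 hm0
  have hsmsm : Real.sqrt m * Real.sqrt m = m := Real.mul_self_sqrt hm0.le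
  have hsm1 : 1 ≤ Real.sqrt m := Real.one_le_sqrt.2 hm1
  have hbB0 : 0 ≤ bB L l := by
    unfold bB
    exact div_nonneg (Finset.sum_nonneg fun _ _ => norm_nonneg _) hm0.le
  have hre : 0 ≤ (sR L l).re := by
    by_contra hh
    have hh' := not_le.1 hh
    have : κ * (sR L l).re < 0 := mul_neg_of_pos_of_neg hκ0 hh'
    linarith
  -- lower bound
  have hlow := hLG m l κ ρ g4 hκ0.le hκ1 hρ0 hρ.le hl hsK hre hbB hY1
  have e1 : L ^ 2 / Real.sqrt m ≤ (1 - κ) * c / 1600 := by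
    rw [div_le_iff₀ hb] at g1
    rw [div_le_div_iff₀ hsm0 (by norm_num)]
    linarith
  have e2 : (m : ℝ) * ρ ^ 2 / 20 = m * (ρ ^ 2 / 20) := by ring
  rw [e2] at hlow
  have hlow2 : (1 - κ) * c / 2 ≤
      Real.sqrt m * ‖∫ τ in (0:ℝ)..ρ, ∏ k, (1 - (τ : ℂ) * l k)‖ := by
    have h3 : 200 * (|(yR L l).im| + L ^ 2 / Real.sqrt m) ≤
        200 * ((1 - κ) * c / 800 + (1 - κ) * c / 1600) := by linarith
    linarith
  -- upper bound
  have hPT := (h1 m l (Finset.univ.filter (fun k => ¬ L < ‖l k‖)) L κ ρ g4 hL1 hκ0.le hκ1.le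
    hρ0.le (fun k hk => not_lt.1 (Finset.mem_filter.1 hk).2)
    ((Finset.sum_le_sum_of_subset_of_nonneg (Finset.filter_subset _ _)
      fun _ _ _ => norm_nonneg _).trans hl) hρL hre).2
    (le_trans (by norm_num) hY1) hρ.le
  have hup := hEP 1 ρ norm_one hρ0 hρr
  simp only [one_mul] at hup
  have e3 : ∏ k ∈ Finset.univ.filter (fun k => ¬ 2 / (1 - r) < ‖l k‖), ‖1 - (ρ : ℂ) * l k‖ ≤
      Real.exp (-(m * ρ ^ 2 / 48)) := by
    rw [← norm_prod]
    exact hPT.2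
  have e4 : 10 / (1 - r) * Real.sqrt δ ≤ ρ ^ 2 / 96 := by
    have h3 : Real.sqrt δ ≤ s := by
      rw [← Real.sqrt_sq hs0.le]
      exact Real.sqrt_le_sqrt (hδ.trans (min_le_right _ _))
    calc 10 / (1 - r) * Real.sqrt δ ≤ 10 / (1 - r) * s :=
          mul_le_mul_of_nonneg_left h3 (by positivity)
      _ = ρ ^ 2 / 96 := by
          rw [hs]
          field_simp
          norm_num
  have e5 : Real.exp (m * (10 / (1 - r) * Real.sqrt δ)) ≤ Real.exp (m * (ρ ^ 2 / 96)) :=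
    Real.exp_le_exp.2 (mul_le_mul_of_nonneg_left e4 hm0.le)
  have e6 : 3 / ((m : ℝ) + 1) * Real.exp (m * (10 / (1 - r) * Real.sqrt δ)) *
      ∏ k ∈ Finset.univ.filter (fun k => ¬ 2 / (1 - r) < ‖l k‖), ‖1 - (ρ : ℂ) * l k‖ ≤
      3 / ((m : ℝ) + 1) * (Real.exp (m * (ρ ^ 2 / 96)) * Real.exp (-(m * ρ ^ 2 / 48))) := by
    rw [mul_assoc]
    refine mul_le_mul_of_nonneg_left ?_ (by positivity)
    exact mul_le_mul e5 e3 (Finset.prod_nonneg fun _ _ => norm_nonneg _) (Real.exp_pos _).le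
  have e7 : Real.exp (m * (ρ ^ 2 / 96)) * Real.exp (-(m * ρ ^ 2 / 48)) =
      Real.exp (-(m * (ρ ^ 2 / 96))) := by
    rw [← Real.exp_add]
    congr 1
    ring
  rw [e7] at e6
  have e8 : Real.sqrt m * (3 / ((m : ℝ) + 1) * Real.exp (-(m * (ρ ^ 2 / 96)))) ≤
      3 * Real.exp (-(m * (ρ ^ 2 / 96))) := by
    have h3 : Real.sqrt m * (3 / ((m : ℝ) + 1)) ≤ 3 := by
      rw [mul_div_assoc', div_le_iff₀ (by positivity)]
      nlinarith
    calc Real.sqrt m * (3 / ((m : ℝ) + 1) * Real.exp (-(m * (ρ ^ 2 / 96))))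
        = Real.sqrt m * (3 / ((m : ℝ) + 1)) * Real.exp (-(m * (ρ ^ 2 / 96))) := by ring
      _ ≤ _ := mul_le_mul_of_nonneg_right h3 (Real.exp_pos _).le
  have e9 := mul_le_mul_of_nonneg_left (hup.trans e6) hsm0.le
  linarith

end Pool.Agent.H897.BV
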